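import Pool.Agent.McT.R.Res

/-!
# Absorbing sequences of von Neumann subalgebras

`Absorb τ Q`: von Neumann subalgebras `Q n` such that (i) for `x n`, `y n` in the unit ball of
`Q n`, either both sequences are central or `‖[x n, y n]‖₂ → 0`; (ii) every central sequence in
the unit ball is, for every `δ > 0` and for infinitely many `m`, eventually within `δ` (squared
2-norm) of the unit ball of `Q m`.
-/

set_option autoImplicit false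

namespace Pool.McT

open Filter Topology

variable {B : Type*} [CStarAlgebra B] {τ : B →ₗ[ℂ] ℂ}

/-- An absorbing sequence of von Neumann subalgebras. -/
structure Absorb (τ : B →ₗ[ℂ] ℂ) (Q : ℕ → Set B) : Prop where
  vsub : ∀ n, VSub τ (Q n)
  small : ∀ x y : ℕ → B, (∀ n, x n ∈ Q n ∧ ‖x n‖ ≤ 1) → (∀ n, y n ∈ Q n ∧ ‖y n‖ ≤ 1) →
    (CentralSeq τ x ∧ CentralSeq τ y) ∨ Tendsto (fun n => N τ (cm (x n) (y n))) atTop (𝓝 0)
  absorb : ∀ x : ℕ → B, CentralSeq τ x → (∀ n, ‖x n‖ ≤ 1) → ∀ δ : ℝ, 0 < δ →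
    ∃ᶠ m in atTop, ∀ᶠ n in atTop, ∃ y ∈ Q m, ‖y‖ ≤ 1 ∧ N τ (x n - y) ≤ δ

/-- A residual sequence is absorbing. -/
theorem Residual.absorb {Q : ℕ → Set B} (h : Residual τ Q) : Absorb τ Q where
  vsub := h.vsub
  small x y hx hy := Or.inl ⟨h.central x (fun n => (hx n).1) fun n => (hx n).2,
    h.central y (fun n => (hy n).1) fun n => (hy n).2⟩
  absorb x hx hx1 δ hδ := Eventually.frequently
    (Eventually.of_forall fun m => h.contains x hx hx1 m δ hδ)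

private theorem cm_le_Abs (hτ : IsTr τ) {v : B} (hv : ‖v‖ ≤ 1) (b : B) :
    N τ (cm v b) ≤ 4 * N τ b := by
  have h1 : cm v b = v * b + -(b * v) := by
    unfold cm
    abel
  rw [h1]
  have h2 := N_add_le hτ (v * b) (-(b * v))
  rw [N_neg] at h2
  have h3 := N_mul_le_left hτ v b
  have h4 := N_mul_le_right hτ b v
  have h5 : ‖v‖ ^ 2 ≤ 1 := pow_le_one₀ (norm_nonneg _) hv
  have h6 := mul_le_of_le_one_left (N_nonneg hτ b) h5
  linarith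

private theorem central_Abs (hτ : IsTr τ) {d : ℕ → B}
    (hd : ∀ x : B, ∀ ε : ℝ, 0 < ε → ∃ n, N τ (x - d n) ≤ ε) {v : ℕ → B} (hv : ∀ n, ‖v n‖ ≤ 1)
    (h : ∀ n m, m ≤ n → N τ (cm (v n) (d m)) ≤ 1 / ((n : ℝ) + 1)) : CentralSeq τ v := by
  refine ⟨⟨1, hv⟩, fun a => ?_⟩
  rw [Metric.tendsto_atTop]
  intro ε hε
  obtain ⟨m, hm⟩ := hd a (ε / 16) (by positivity)
  obtain ⟨n₀, hn₀⟩ := exists_nat_one_div_lt (show (0 : ℝ) < ε / 8 by positivity)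
  refine ⟨max m n₀, fun n hn => ?_⟩
  have h1 : cm (v n) a = cm (v n) (a - d m) + cm (v n) (d m) := by
    unfold cm
    noncomm_ring
  have h2 := N_add_le hτ (cm (v n) (a - d m)) (cm (v n) (d m))
  rw [← h1] at h2
  have h3 := cm_le_Abs hτ (hv n) (a - d m)
  have h4 := h n m (le_trans (le_max_left _ _) hn)
  have h6 : n₀ ≤ n := le_trans (le_max_right _ _) hn
  have h7 : (n₀ : ℝ) ≤ n := by exact_mod_cast h6
  have h5 : 1 / ((n : ℝ) + 1) ≤ 1 / ((n₀ : ℝ) + 1) :=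
    one_div_le_one_div_of_le (by positivity) (by linarith)
  rw [Real.dist_eq, sub_zero, abs_of_nonneg (N_nonneg hτ _)]
  linarith

/-- (ii) holds for one `m ≥ m₀` and all central sequences. -/
private theorem unif_Abs (hτ : IsTr τ) (hs : Sep τ) {Q : ℕ → Set B} (hQ : Absorb τ Q) {δ : ℝ}
    (hδ : 0 < δ) (m₀ : ℕ) :
    ∃ m, m₀ ≤ m ∧ ∀ x : ℕ → B, CentralSeq τ x → (∀ n, ‖x n‖ ≤ 1) →
      ∀ᶠ n in atTop, ∃ y ∈ Q m, ‖y‖ ≤ 1 ∧ N τ (x n - y) ≤ δ := by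
  obtain ⟨d, hd⟩ := hs
  by_contra hcon
  push Not at hcon
  have h1 : ∀ k : ℕ, ∃ z : B, ‖z‖ ≤ 1 ∧
      (∀ i, i ≤ k → N τ (cm z (d i)) ≤ 1 / ((k : ℝ) + 1)) ∧
      ∀ y ∈ Q (m₀ + k.unpair.1), ‖y‖ ≤ 1 → δ < N τ (z - y) := by
    intro k
    obtain ⟨x, hx, hx1, hx2⟩ := hcon (m₀ + k.unpair.1) (Nat.le_add_right _ _)
    have h2 : ∀ᶠ n in atTop, ∀ i ∈ Finset.range (k + 1),
        N τ (cm (x n) (d i)) ≤ 1 / ((k : ℝ) + 1) := by
      rw [Filter.eventually_all_finset]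
      intro i _
      have h3 := (hx.2 (d i)).eventually (gt_mem_nhds
        (show (0 : ℝ) < 1 / ((k : ℝ) + 1) by positivity))
      exact h3.mono fun n hn => hn.le
    obtain ⟨n, hn1, hn2⟩ := (hx2.and_eventually h2).exists
    exact ⟨x n, hx1 n, fun i hi => hn2 i (Finset.mem_range.2 (Nat.lt_succ_of_le hi)), hn1⟩
  choose z hz1 hz2 hz3 using h1
  have hc : CentralSeq τ z := central_Abs hτ hd hz1 fun n m hm => hz2 n m hm
  obtain ⟨m, hm1, hm2⟩ := ((hQ.absorb z hc hz1 δ hδ).and_eventually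
    (eventually_ge_atTop m₀)).exists
  obtain ⟨n₀, hn₀⟩ := eventually_atTop.1 hm1
  obtain ⟨y, hy, hy1, h4⟩ := hn₀ (Nat.pair (m - m₀) n₀) (Nat.right_le_pair _ _)
  have h5 := hz3 (Nat.pair (m - m₀) n₀)
  rw [Nat.unpair_pair] at h5
  have h6 : m₀ + (m - m₀, n₀).1 = m := Nat.add_sub_cancel' hm2
  rw [h6] at h5
  exact absurd h4 (not_le.2 (h5 y hy hy1))

private theorem nc_Abs {Q : ℕ → Set B} (hQ : Absorb τ Q) (hM : ¬ McDuff τ)
    {δ : ℝ} (hδ : 0 < δ) :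
    ∃ m₀, ∀ m, m₀ ≤ m → ∀ x ∈ Q m, ‖x‖ ≤ 1 → ∀ y ∈ Q m, ‖y‖ ≤ 1 → N τ (cm x y) ≤ δ := by
  by_contra hcon
  push Not at hcon
  have h1 : ∀ m : ℕ, ∃ p : B × B, (p.1 ∈ Q m ∧ ‖p.1‖ ≤ 1) ∧ (p.2 ∈ Q m ∧ ‖p.2‖ ≤ 1) ∧
      ((∃ x ∈ Q m, ‖x‖ ≤ 1 ∧ ∃ y ∈ Q m, ‖y‖ ≤ 1 ∧ δ < N τ (cm x y)) →
        δ < N τ (cm p.1 p.2)) := by
    intro m
    by_cases h : ∃ x ∈ Q m, ‖x‖ ≤ 1 ∧ ∃ y ∈ Q m, ‖y‖ ≤ 1 ∧ δ < N τ (cm x y)
    · obtain ⟨x, hx, hx1, y, hy, hy1, hxy⟩ := h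
      exact ⟨(x, y), ⟨hx, hx1⟩, ⟨hy, hy1⟩, fun _ => hxy⟩
    · refine ⟨(0, 0), ⟨(hQ.vsub m).zero, ?_⟩, ⟨(hQ.vsub m).zero, ?_⟩, fun h' => absurd h' h⟩ <;>
      · rw [norm_zero]
        exact zero_le_one
  choose p hp1 hp2 hp3 using h1
  have h2 : Tendsto (fun n => N τ (cm (p n).1 (p n).2)) atTop (𝓝 0) := by
    rcases hQ.small (fun n => (p n).1) (fun n => (p n).2) hp1 hp2 with h | h
    · by_contra hn
      exact hM ⟨_, _, h.1, h.2, hn⟩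
    · exact h
  obtain ⟨n₀, hn₀⟩ := eventually_atTop.1 (h2.eventually (gt_mem_nhds hδ))
  obtain ⟨m, hm, x, hx, hx1, y, hy, hy1, hxy⟩ := hcon n₀
  exact absurd (hp3 m ⟨x, hx, hx1, y, hy, hy1, hxy⟩) (not_lt.2 (hn₀ m hm).le)

theorem Absorb.centrNC (hτ : IsTr τ) (hs : Sep τ) {Q : ℕ → Set B} (hQ : Absorb τ Q)
    (hM : ¬ McDuff τ) : CentrNC τ := by
  intro δ hδ
  obtain ⟨m₀, hm₀⟩ := nc_Abs hQ hM hδ
  obtain ⟨m, hm, h⟩ := unif_Abs hτ hs hQ hδ m₀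
  exact ⟨Q m, hQ.vsub m, hm₀ m hm, h⟩

/-- `CentrAb` gives an absorbing sequence. -/
theorem exists_absorb_of_centrAb (hW : WT τ) (h : CentrAb τ) : ∃ Q : ℕ → Set B, Absorb τ Q := by
  have h1 : ∀ m : ℕ, ∃ E : B →ₗ[ℂ] B, AbExp τ E ∧ ∀ x : ℕ → B, CentralSeq τ x →
      (∀ n, ‖x n‖ ≤ 1) → ∀ᶠ n in atTop, N τ (x n - E (x n)) ≤ 1 / ((m : ℝ) + 1) :=
    fun m => h _ (by positivity)
  choose E hE hx using h1
  refine ⟨fun m => {x | E m x = x}, fun m => (hE m).vsub hW, fun x y hx' hy' => Or.inr ?_,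
    fun x hc hx1 δ hδ => ?_⟩
  · have h2 : (fun n => N τ (cm (x n) (y n))) = fun _ => (0 : ℝ) := by
      funext n
      have e1 : E n (x n) = x n := (hx' n).1
      have e2 : E n (y n) = y n := (hy' n).1
      have h3 : cm (x n) (y n) = 0 := by
        unfold cm
        have h4 := (hE n).comm (x n) (y n)
        rw [e1, e2] at h4
        rw [h4, sub_self]
      rw [h3, N_zero]
    rw [h2]
    exact tendsto_const_nhds
  · obtain ⟨m₀, hm₀⟩ := exists_nat_one_div_lt hδ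
    refine Eventually.frequently (eventually_atTop.2 ⟨m₀, fun m hm => ?_⟩)
    filter_upwards [hx m x hc hx1] with n h1
    refine ⟨E m (x n), (hE m).idem _, ((hE m).norm_le _).trans (hx1 n), h1.trans ?_⟩
    have h7 : (m₀ : ℝ) ≤ m := by exact_mod_cast hm
    exact (one_div_le_one_div_of_le (by positivity) (by linarith)).trans hm₀.le

variable {A D : Type*} [CStarAlgebra A] [CStarAlgebra D]
  {τA : A →ₗ[ℂ] ℂ} {τD : D →ₗ[ℂ] ℂ} {iA : A →⋆ₐ[ℂ] D} {iB : B →⋆ₐ[ℂ] D}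

/-- If `B` has an absorbing sequence of von Neumann subalgebras and `A ⊗ B` is McDuff, then `A`
or `B` is McDuff. -/
theorem mcduff_of_absorb (T : Tens τA τ τD iA iB) (hd : Dense2 τD iA iB) (hA : Fac τA)
    (hB : Fac τ) (sA : Sep τA) (sB : Sep τ) {Q : ℕ → Set B} (hQ : Absorb τ Q)
    (hD : McDuff τD) : McDuff τA ∨ McDuff τ := by
  by_cases mB : McDuff τ
  · exact Or.inr mB
  · exact Or.inl (mcduff_of_centrNC T hd hA hB sA sB (hQ.centrNC hB.tr sB mB) hD)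

end Pool.McT
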