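import Pool.Agent.McT.R.Proj

/-! Nearly commutative von Neumann subalgebras are close to abelian ones. -/

set_option autoImplicit false

namespace Pool.McT

open Filter Topology

variable {B : Type*} [CStarAlgebra B] {τ : B →ₗ[ℂ] ℂ}

/-- an element which commutes with the unitaries of `S` commutes with `S` -/
private theorem comm_sa_Near (hW : WT τ) {S : Set B} (hS : VSub τ S) {F : B}
    (hF : ∀ u ∈ S, star u * u = 1 → u * star u = 1 → F * u = u * F) {s : B} (hs : s ∈ S)
    (hsa : IsSelfAdjoint s) (hn : ‖s‖ ≤ 1) : F * s = s * F := by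
  have hsq : Continuous fun t : ℝ => Real.sqrt (1 - clp 1 t * clp 1 t) := by
    have := clp_cont 1
    fun_prop
  obtain ⟨c, hc⟩ : ∃ c : B, c = cfc (fun t : ℝ => Real.sqrt (1 - clp 1 t * clp 1 t)) s :=
    ⟨_, rfl⟩
  have hcs : star c = c := by
    rw [hc]
    exact (cfc_predicate (R := ℝ) (p := IsSelfAdjoint) _ s).star_eq
  have hsc : cfc (clp 1) s = s := by
    have h1 : cfc (clp 1) s = cfc (fun t : ℝ => t) s := by
      refine cfc_congr fun t ht => ?_
      refine clp_of_le ?_
      rcases subsingleton_or_nontrivial B with h' | h'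
      · exact absurd ht (by simp [spectrum.of_subsingleton])
      · have := spectrum.norm_le_norm_of_mem ht
        rw [Real.norm_eq_abs] at this
        exact this.trans hn
    rw [h1, cfc_id' ℝ s hsa]
  have hcS : c ∈ S := by
    rw [hc]
    exact hS.cfc hW hs hsa hsq
  have hcc : c * c + s * s = 1 := by
    have h1 : s * s = cfc (fun t : ℝ => clp 1 t * clp 1 t) s := by
      rw [cfc_mul (clp 1) (clp 1) s (clp_cont 1).continuousOn (clp_cont 1).continuousOn, hsc]
    have hq : Continuous fun t : ℝ => Real.sqrt (1 - clp 1 t * clp 1 t) *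
        Real.sqrt (1 - clp 1 t * clp 1 t) := hsq.mul hsq
    have hp : Continuous fun t : ℝ => clp 1 t * clp 1 t := (clp_cont 1).mul (clp_cont 1)
    rw [h1, hc, ← cfc_mul _ _ s hsq.continuousOn hsq.continuousOn,
      ← cfc_add (a := s) (fun t : ℝ => Real.sqrt (1 - clp 1 t * clp 1 t) *
        Real.sqrt (1 - clp 1 t * clp 1 t)) (fun t : ℝ => clp 1 t * clp 1 t)
      hq.continuousOn hp.continuousOn]
    have h2 : (fun t : ℝ => Real.sqrt (1 - clp 1 t * clp 1 t) *
        Real.sqrt (1 - clp 1 t * clp 1 t) + clp 1 t * clp 1 t) = fun _ => (1 : ℝ) := by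
      funext t
      have h3 : 0 ≤ 1 - clp 1 t * clp 1 t := by
        have h4 := clp_abs zero_le_one t
        rw [abs_le] at h4
        nlinarith
      rw [Real.mul_self_sqrt h3]
      ring
    rw [h2, cfc_const_one ℝ s]
  have hcomm : c * s = s * c := by
    have h1 : cfc (fun t : ℝ => Real.sqrt (1 - clp 1 t * clp 1 t) * clp 1 t) s =
        cfc (fun t : ℝ => clp 1 t * Real.sqrt (1 - clp 1 t * clp 1 t)) s := by
      congr 1
      funext t
      ring
    rw [cfc_mul _ _ s hsq.continuousOn (clp_cont 1).continuousOn,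
      cfc_mul _ _ s (clp_cont 1).continuousOn hsq.continuousOn, hsc, ← hc] at h1
    exact h1
  obtain ⟨u, hu⟩ : ∃ u : B, u = c + Complex.I • s := ⟨_, rfl⟩
  have hus : star u = c - Complex.I • s := by
    have hI : star Complex.I = -Complex.I := Complex.conj_I
    rw [hu, star_add, star_smul, hcs, hsa.star_eq, hI, neg_smul, sub_eq_add_neg]
  have huS : u ∈ S := by
    rw [hu]
    exact hS.add _ _ hcS (hS.smul _ _ hs)
  have h1 : star u * u = 1 := by
    rw [hus, hu, sub_mul, mul_add, mul_add, smul_mul_smul_comm, Complex.I_mul_I, neg_smul,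
      one_smul, mul_smul_comm, smul_mul_assoc, hcomm, ← hcc]
    abel
  have h2 : u * star u = 1 := by
    rw [hus, hu, add_mul, mul_sub, mul_sub, smul_mul_smul_comm, Complex.I_mul_I, neg_smul,
      one_smul, mul_smul_comm, smul_mul_assoc, hcomm, ← hcc]
    abel
  have h3 := hF u huS h1 h2
  have h4 := hF (star u) (hS.star _ huS) (by rw [star_star]; exact h2)
    (by rw [star_star]; exact h1)
  have e : s = (-Complex.I / 2 : ℂ) • (u - star u) := by
    rw [hus, hu]
    have e1 : c + Complex.I • s - (c - Complex.I • s) = (2 * Complex.I : ℂ) • s := by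
      rw [mul_smul, two_smul]
      abel
    rw [e1, smul_smul]
    have e2 : -Complex.I / 2 * (2 * Complex.I) = (1 : ℂ) := by
      have : -Complex.I / 2 * (2 * Complex.I) = -(Complex.I * Complex.I) := by ring
      rw [this, Complex.I_mul_I, neg_neg]
    rw [e2, one_smul]
  rw [e, mul_smul_comm, smul_mul_assoc, mul_sub, sub_mul, h3, h4]

private theorem comm_all_Near (hW : WT τ) {S : Set B} (hS : VSub τ S) {F : B}
    (hF : ∀ u ∈ S, star u * u = 1 → u * star u = 1 → F * u = u * F) {s : B} (hs : s ∈ S) :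
    F * s = s * F := by
  have hsa : ∀ r ∈ S, IsSelfAdjoint r → F * r = r * F := by
    intro r hr hra
    have hpos : 0 < ‖r‖ + 1 := by positivity
    have h1 := comm_sa_Near hW hS hF (s := (((‖r‖ + 1)⁻¹ : ℝ) : ℂ) • r)
      (hS.smul _ _ hr) (by
        show star ((((‖r‖ + 1)⁻¹ : ℝ) : ℂ) • r) = _
        have e3 : star (((‖r‖ + 1)⁻¹ : ℝ) : ℂ) = (((‖r‖ + 1)⁻¹ : ℝ) : ℂ) :=
          Complex.conj_ofReal _
        rw [star_smul, hra.star_eq, e3]) (by
        rw [norm_smul, Complex.norm_real, Real.norm_eq_abs, abs_of_pos (inv_pos.2 hpos),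
          inv_mul_le_iff₀ hpos, mul_one]
        linarith)
    rw [mul_smul_comm, smul_mul_assoc] at h1
    have hne : (((‖r‖ + 1)⁻¹ : ℝ) : ℂ) ≠ 0 := by
      rw [Ne, Complex.ofReal_eq_zero]
      exact (inv_pos.2 hpos).ne'
    exact smul_right_injective B hne h1
  have h1 := hsa (s + star s) (hS.add _ _ hs (hS.star _ hs)) (by
    show star (s + star s) = s + star s
    rw [star_add, star_star, add_comm])
  have h2 := hsa (Complex.I • (s - star s)) (hS.smul _ _ (hS.sub hs (hS.star _ hs))) (by
    show star (Complex.I • (s - star s)) = Complex.I • (s - star s)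
    have hI : star Complex.I = -Complex.I := Complex.conj_I
    rw [star_smul, star_sub, star_star, hI, neg_smul, ← smul_neg, neg_sub])
  rw [mul_smul_comm, smul_mul_assoc] at h2
  have h3 := smul_right_injective B Complex.I_ne_zero h2
  have h3' : F * (s - star s) = (s - star s) * F := h3
  have e : s = (1 / 2 : ℂ) • ((s + star s) + (s - star s)) := by
    have e1 : s + star s + (s - star s) = (2 : ℂ) • s := by
      rw [two_smul]
      abel
    rw [e1, smul_smul]
    norm_num
  rw [e, mul_smul_comm, smul_mul_assoc, mul_add, add_mul, h1, h3']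

/-- The element of minimal 2-norm in the closed convex hull of `{u y u*}`. -/
theorem exists_avg (hW : WT τ) {Q S : Set B} (hQ : VSub τ Q) (hS : VSub τ S) (hSQ : S ⊆ Q)
    {y : B} (hy : y ∈ Q) (hy1 : ‖y‖ ≤ 1) {ε : ℝ}
    (hε : ∀ u ∈ S, ‖u‖ ≤ 1 → N τ (cm y u) ≤ ε) :
    ∃ F ∈ Q, (∀ s ∈ S, F * s = s * F) ∧ N τ (y - F) ≤ ε := by
  have hnorm : ∀ u : B, star u * u = 1 → ‖u‖ ≤ 1 := by
    intro u hu
    have h1 : ‖star u * u‖ = ‖u‖ * ‖u‖ := CStarRing.norm_star_mul_self
    have h2 : ‖(1 : B)‖ ≤ 1 := by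
      rcases subsingleton_or_nontrivial B with h' | h'
      · rw [Subsingleton.elim (1 : B) 0, norm_zero]
        exact zero_le_one
      · exact norm_one.le
    rw [hu] at h1
    by_contra hlt
    rw [not_le] at hlt
    nlinarith
  obtain ⟨K, hK⟩ : ∃ K : Set B, K = {z | z ∈ Q ∧ ‖z‖ ≤ 1 ∧ ∀ (w : B) (c : ℝ),
      (∀ u ∈ S, star u * u = 1 → u * star u = 1 → (τ (w * (u * y * star u))).re ≤ c) →
      (τ (w * z)).re ≤ c} := ⟨_, rfl⟩
  have hyK : y ∈ K := by
    rw [hK]
    refine ⟨hy, hy1, fun w c h => ?_⟩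
    have h1 := h 1 hS.one (by rw [star_one, one_mul]) (by rw [star_one, one_mul])
    rwa [star_one, one_mul, mul_one] at h1
  have hinv : ∀ z ∈ K, ∀ v ∈ S, star v * v = 1 → v * star v = 1 → v * z * star v ∈ K := by
    intro z hz v hv hv1 hv2
    rw [hK] at hz ⊢
    refine ⟨hQ.mul _ _ (hQ.mul _ _ (hSQ hv) hz.1) (hQ.star _ (hSQ hv)), ?_, fun w c h => ?_⟩
    · have n1 := hnorm v hv1
      have n2 : ‖star v‖ ≤ 1 := by rw [norm_star]; exact n1
      calc ‖v * z * star v‖ ≤ ‖v * z‖ * ‖star v‖ := norm_mul_le _ _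
        _ ≤ ‖v‖ * ‖z‖ * ‖star v‖ := mul_le_mul_of_nonneg_right (norm_mul_le _ _) (norm_nonneg _)
        _ ≤ 1 * 1 * 1 := mul_le_mul (mul_le_mul n1 hz.2.1 (norm_nonneg _) zero_le_one) n2
          (norm_nonneg _) (by norm_num)
        _ = 1 := by norm_num
    · have h1 := hz.2.2 (star v * w * v) c (fun u hu hu1 hu2 => by
        have h2 := h (v * u) (hS.mul _ _ hv hu) (by
          rw [star_mul, mul_assoc, ← mul_assoc (star v), hv1, one_mul, hu1]) (by
          rw [star_mul, mul_assoc, ← mul_assoc u, hu2, one_mul, hv2])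
        have e : τ (star v * w * v * (u * y * star u)) =
            τ (w * (v * u * y * star (v * u))) := by
          rw [star_mul, mul_assoc (star v), mul_assoc (star v), hW.tr.comm]
          congr 1
          noncomm_ring
        rwa [e])
      have e : τ (w * (v * z * star v)) = τ (star v * w * v * z) := by
        rw [← mul_assoc, hW.tr.comm]
        congr 1
        noncomm_ring
      rwa [e]
  obtain ⟨F, hF, hmin⟩ := exists_min hW (K := K) (C := 1) ⟨y, hyK⟩
    (fun z hz => by rw [hK] at hz; exact hz.2.1)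
    (fun a ha b hb => by
      rw [hK] at ha hb ⊢
      refine ⟨hQ.smul _ _ (hQ.add _ _ ha.1 hb.1), ?_, fun w c h => ?_⟩
      · rw [norm_smul]
        have h1 := norm_add_le a b
        have h2 := ha.2.1
        have h3 := hb.2.1
        norm_num
        linarith
      · have h1 := ha.2.2 w c h
        have h2 := hb.2.2 w c h
        have e : τ (w * ((1 / 2 : ℂ) • (a + b))) = ((1 / 2 : ℝ) : ℂ) * (τ (w * a) + τ (w * b)) := by
          rw [mul_smul_comm, mul_add, map_smul, map_add, smul_eq_mul]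
          push_cast
          rfl
        rw [e, Complex.re_ofReal_mul, Complex.add_re]
        linarith)
    (fun x z hx hl => by
      have hx' : ∀ n, x n ∈ {z | z ∈ Q ∧ ‖z‖ ≤ 1 ∧ ∀ (w : B) (c : ℝ),
          (∀ u ∈ S, star u * u = 1 → u * star u = 1 → (τ (w * (u * y * star u))).re ≤ c) →
          (τ (w * z)).re ≤ c} := fun n => by rw [← hK]; exact hx n
      rw [hK]
      refine ⟨hQ.lim x z 1 (fun n => (hx' n).2.1) (fun n => (hx' n).1) hl,
        hl.norm_le hW fun n => (hx' n).2.1, fun w c h => ?_⟩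
      have h1 := (hl.mul_left hW w).tendsto_tau hW
      have h2 := (Complex.continuous_re.tendsto _).comp h1
      exact le_of_tendsto' h2 fun n => (hx' n).2.2 w c h) 0
  have hFK := hF
  rw [hK] at hFK
  refine ⟨F, hFK.1, fun s hs => comm_all_Near hW hS (fun v hv hv1 hv2 => ?_) hs, ?_⟩
  · have h1 := hinv F hF v hv hv1 hv2
    have h2 : (1 / 2 : ℂ) • (F + v * F * star v) ∈ K := by
      rw [hK] at hF h1 ⊢
      refine ⟨hQ.smul _ _ (hQ.add _ _ hF.1 h1.1), ?_, fun w c h => ?_⟩
      · rw [norm_smul]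
        have h4 := norm_add_le F (v * F * star v)
        have h2 := hF.2.1
        have h3 := h1.2.1
        norm_num
        linarith
      · have h3 := hF.2.2 w c h
        have h4 := h1.2.2 w c h
        have e : τ (w * ((1 / 2 : ℂ) • (F + v * F * star v))) =
            ((1 / 2 : ℝ) : ℂ) * (τ (w * F) + τ (w * (v * F * star v))) := by
          rw [mul_smul_comm, mul_add, map_smul, map_add, smul_eq_mul]
          push_cast
          rfl
        rw [e, Complex.re_ofReal_mul, Complex.add_re]
        linarith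
    have h3 := hmin _ h2
    rw [zero_sub, zero_sub, N_neg, N_neg, N_smul] at h3
    have e1 : ‖(1 / 2 : ℂ)‖ ^ 2 = 1 / 4 := by norm_num
    rw [e1] at h3
    have h4 := N_par (τ := τ) F (v * F * star v)
    have h5 : N τ (v * F * star v) ≤ N τ F := by
      have n1 := hnorm v hv1
      have h6 := N_mul_le_right hW.tr (v * F) (star v)
      have h7 := N_mul_le_left hW.tr v F
      rw [norm_star] at h6
      have h8 : ‖v‖ ^ 2 ≤ 1 := pow_le_one₀ (norm_nonneg _) n1
      have h9 := mul_le_of_le_one_left (N_nonneg hW.tr F) h8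
      have h10 := mul_le_of_le_one_left (N_nonneg hW.tr (v * F)) h8
      linarith
    have h6 : N τ (F - v * F * star v) = 0 :=
      le_antisymm (by linarith) (N_nonneg hW.tr _)
    have h7 := sub_eq_zero.1 (hW.faithful _ h6)
    calc F * v = v * F * star v * v := by rw [← h7]
      _ = v * F := by rw [mul_assoc, hv1, mul_one]
  · obtain ⟨d, hd⟩ : ∃ d : B, d = y - F := ⟨_, rfl⟩
    rw [← hd]
    have h1 := hFK.2.2 (-star d) (-(τ (star d * y)).re + (N τ d + ε) / 2) (fun u hu hu1 hu2 => by
      have h2 : N τ (y - u * y * star u) ≤ ε := by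
        have n1 := hnorm u hu1
        have e2 : y - u * y * star u = cm y u * star u := by
          unfold cm
          rw [sub_mul, mul_assoc y u, hu2, mul_one]
        rw [e2]
        have h6 := N_mul_le_right hW.tr (cm y u) (star u)
        rw [norm_star] at h6
        have h8 : ‖u‖ ^ 2 ≤ 1 := pow_le_one₀ (norm_nonneg _) n1
        have h9 := mul_le_of_le_one_left (N_nonneg hW.tr (cm y u)) h8
        exact (h6.trans h9).trans (hε u hu n1)
      have h3 := N_sub_eq hW.tr (y - u * y * star u) d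
      have h4 := N_nonneg hW.tr (y - u * y * star u - d)
      have e3 : τ (-star d * (u * y * star u)) =
          -τ (star d * y) + τ (star d * (y - u * y * star u)) := by
        rw [neg_mul, map_neg, mul_sub, map_sub]
        ring
      rw [e3, Complex.add_re, Complex.neg_re]
      linarith)
    have e4 : τ (star d * d) = τ (star d * y) + τ (-star d * F) := by
      rw [neg_mul, map_neg]
      nth_rewrite 2 [hd]
      rw [mul_sub, map_sub]
      ring
    have h5 : N τ d = (τ (star d * y)).re + (τ (-star d * F)).re := by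
      unfold N
      rw [e4, Complex.add_re]
    linarith

/-- A nearly commutative von Neumann subalgebra is close to an abelian one. -/
theorem near_abExp (hW : WT τ) {Q : Set B} (hQ : VSub τ Q) {ε : ℝ}
    (hε : ∀ x ∈ Q, ‖x‖ ≤ 1 → ∀ y ∈ Q, ‖y‖ ≤ 1 → N τ (cm x y) ≤ ε) :
    ∃ E : B →ₗ[ℂ] B, AbExp τ E ∧ ∀ y ∈ Q, ‖y‖ ≤ 1 → N τ (y - E y) ≤ ε := by
  obtain ⟨S, hSQ, hS, hc, hmax⟩ := exists_masa hW hQ
  obtain ⟨E, hE, hmin⟩ := exists_abExp hW hS hc
  refine ⟨E, hE, fun y hy hy1 => ?_⟩
  obtain ⟨F, hF, hFc, hFn⟩ := exists_avg hW hQ hS hSQ hy hy1 fun u hu hu1 =>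
    hε y hy hy1 u (hSQ hu) hu1
  exact (hmin y F (hmax F hF hFc)).trans hFn

end Pool.McT
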