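import Pool.Agent.McT.R.Sub
import Pool.Agent.McT.Q.Kap
import Pool.Agent.McT.F.Exp

/-! The conditional expectation onto an abelian von Neumann subalgebra. -/

set_option autoImplicit false

namespace Pool.McT

open Filter Topology

variable {B : Type*} [CStarAlgebra B] {τ : B →ₗ[ℂ] ℂ}

private theorem half_Proj (a z w : B) :
    (2 : ℂ) • (a - (1 / 2 : ℂ) • (z + w)) = (a - z) + (a - w) := by
  rw [smul_sub, smul_smul, two_smul]
  norm_num
  abel

/-- A minimizer of the distance in a bounded closed convex set. -/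
theorem exists_min (hW : WT τ) {K : Set B} {C : ℝ} (hK0 : K.Nonempty) (hC : ∀ z ∈ K, ‖z‖ ≤ C)
    (hmid : ∀ x ∈ K, ∀ y ∈ K, (1 / 2 : ℂ) • (x + y) ∈ K)
    (hlim : ∀ (x : ℕ → B) (y : B), (∀ n, x n ∈ K) → Lim2 τ x y → y ∈ K) (a : B) :
    ∃ z ∈ K, ∀ w ∈ K, N τ (a - z) ≤ N τ (a - w) := by
  obtain ⟨V, hV⟩ : ∃ V : Set ℝ, V = {r | ∃ z ∈ K, r = N τ (a - z)} := ⟨_, rfl⟩
  have hb : BddBelow V := ⟨0, by
    rw [hV]
    rintro r ⟨z, _, rfl⟩
    exact N_nonneg hW.tr _⟩
  have hne : V.Nonempty := by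
    obtain ⟨z, hz⟩ := hK0
    rw [hV]
    exact ⟨_, z, hz, rfl⟩
  obtain ⟨m, hm⟩ : ∃ m : ℝ, m = sInf V := ⟨_, rfl⟩
  have hlow : ∀ z ∈ K, m ≤ N τ (a - z) := by
    intro z hz
    rw [hm]
    exact csInf_le hb (by rw [hV]; exact ⟨z, hz, rfl⟩)
  have hseq : ∀ n : ℕ, ∃ z ∈ K, N τ (a - z) ≤ m + 1 / ((n : ℝ) + 1) := by
    intro n
    have h1 : sInf V < m + 1 / ((n : ℝ) + 1) := by
      rw [← hm]
      have : (0 : ℝ) < 1 / ((n : ℝ) + 1) := by positivity
      linarith
    obtain ⟨r, hr, hr'⟩ := exists_lt_of_csInf_lt hne h1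
    rw [hV] at hr
    obtain ⟨z, hz, rfl⟩ := hr
    exact ⟨z, hz, hr'.le⟩
  choose z hz hzm using hseq
  have hpar : ∀ i j : ℕ, N τ (z i - z j) ≤ 2 * (1 / ((i : ℝ) + 1)) + 2 * (1 / ((j : ℝ) + 1)) := by
    intro i j
    have h1 := N_par (τ := τ) (a - z i) (a - z j)
    have h2 := hlow _ (hmid _ (hz i) _ (hz j))
    rw [← half_Proj, N_smul] at h1
    have e1 : ‖(2 : ℂ)‖ ^ 2 = 4 := by norm_num
    have e2 : a - z i - (a - z j) = -(z i - z j) := by abel
    rw [e1, e2, N_neg] at h1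
    have h3 := hzm i
    have h4 := hzm j
    linarith
  obtain ⟨y, -, hy⟩ := exists_lim2 hW (fun n => hC _ (hz n)) (fun ε hε => by
    obtain ⟨n₀, hn₀⟩ := exists_nat_one_div_lt (show (0 : ℝ) < ε / 4 by positivity)
    have hle : ∀ m : ℕ, n₀ ≤ m → 1 / ((m : ℝ) + 1) ≤ ε / 4 := by
      intro m hm
      have h7 : (n₀ : ℝ) ≤ m := by exact_mod_cast hm
      exact (one_div_le_one_div_of_le (by positivity) (by linarith)).trans hn₀.le
    refine ⟨n₀, fun i j hi hj => (hpar i j).trans ?_⟩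
    have h1 := hle i hi
    have h2 := hle j hj
    linarith)
  refine ⟨y, hlim z y hz hy, fun w hw => ?_⟩
  have h1 : Tendsto (fun n => N τ (a - z n)) atTop (𝓝 (N τ (a - y))) :=
    ((Lim2.const a).sub hW hy).tendsto_N hW
  have h2 : Tendsto (fun n : ℕ => m + 1 / ((n : ℝ) + 1)) atTop (𝓝 (m + 0)) :=
    tendsto_one_div_add_atTop_nhds_zero_nat.const_add m
  rw [add_zero] at h2
  exact (le_of_tendsto_of_tendsto' h1 h2 hzm).trans (hlow w hw)

/-- the norm of `((0, x), (x*, 0))` -/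
private theorem norm_XX_Proj (x : B) : ‖XX x‖ ≤ ‖x‖ := by
  let φ : B × B →⋆ₐ[ℂ] M2 B :=
    { toFun := fun p => mk2 p.1 0 0 p.2
      map_one' := ext2 rfl rfl rfl rfl
      map_mul' := fun p q => by
        refine ext2 ?_ ?_ ?_ ?_ <;> rw [ent_mul]
        · show p.1 * q.1 = p.1 * q.1 + 0 * 0
          rw [mul_zero, add_zero]
        · show (0 : B) = p.1 * 0 + 0 * q.2
          rw [mul_zero, zero_mul, add_zero]
        · show (0 : B) = 0 * q.1 + p.2 * 0
          rw [mul_zero, zero_mul, add_zero]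
        · show p.2 * q.2 = 0 * 0 + p.2 * q.2
          rw [mul_zero, zero_add]
      map_zero' := ext2 rfl rfl rfl rfl
      map_add' := fun p q => by
        refine ext2 ?_ ?_ ?_ ?_ <;> rw [ent_add]
        · rfl
        · show (0 : B) = 0 + 0
          rw [add_zero]
        · show (0 : B) = 0 + 0
          rw [add_zero]
        · rfl
      commutes' := fun r => by
        refine ext2 ?_ ?_ ?_ ?_
        · rfl
        · show (0 : B) = ent (algebraMap ℂ (M2 B) r) 0 1
          rw [Algebra.algebraMap_eq_smul_one, ent_smul, ent_one_01, smul_zero]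
        · show (0 : B) = ent (algebraMap ℂ (M2 B) r) 1 0
          rw [Algebra.algebraMap_eq_smul_one, ent_smul, ent_one_10, smul_zero]
        · rfl
      map_star' := fun p => by
        refine ext2 ?_ ?_ ?_ ?_ <;> rw [ent_star]
        · rfl
        · exact (star_zero B).symm
        · exact (star_zero B).symm
        · rfl }
  have h1 : star (XX x) * XX x = φ (x * star x, star x * x) := by
    rw [(XX_selfAdjoint x).star_eq, XX_mul_XX]
    rfl
  have h2 : ‖φ (x * star x, star x * x)‖ ≤ ‖x‖ * ‖x‖ := by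
    refine (NonUnitalStarAlgHom.norm_apply_le φ _).trans ?_
    rw [Prod.norm_def]
    refine max_le ?_ ?_
    · exact (norm_mul_le _ _).trans (by rw [norm_star])
    · exact (norm_mul_le _ _).trans (by rw [norm_star])
  rw [← h1, CStarRing.norm_star_mul_self] at h2
  by_contra hlt
  rw [not_le] at hlt
  nlinarith [norm_nonneg x]

private theorem ent_pow_Proj {S : Set B} (hS : VSub τ S) {M : M2 B}
    (hM : ∀ i j, ent M i j ∈ S) (n : ℕ) (i j : Fin 2) : ent (M ^ n) i j ∈ S := by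
  induction n generalizing i j with
  | zero =>
    rw [pow_zero]
    fin_cases i <;> fin_cases j
    · exact hS.one
    · exact hS.zero
    · exact hS.zero
    · exact hS.one
  | succ n ih =>
    rw [pow_succ, ent_mul]
    exact hS.add _ _ (hS.mul _ _ (ih _ _) (hM _ _)) (hS.mul _ _ (ih _ _) (hM _ _))

private theorem ent_sum_Proj {n : ℕ} (c : ℕ → ℝ) (M : ℕ → M2 B) (i j : Fin 2) :
    ent (∑ k ∈ Finset.range n, c k • M k) i j =
      ∑ k ∈ Finset.range n, ((c k : ℝ) : ℂ) • ent (M k) i j := by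
  induction n with
  | zero => rfl
  | succ n ih =>
    rw [Finset.sum_range_succ, Finset.sum_range_succ, ent_add, ih]
    rfl

private theorem abs_le_Proj {A : Type*} [CStarAlgebra A] {h : A} {s : ℝ}
    (hs : s ∈ spectrum ℝ h) : |s| ≤ ‖h‖ := by
  rcases subsingleton_or_nontrivial A with h' | h'
  · exact absurd hs (by simp [spectrum.of_subsingleton])
  · have := spectrum.norm_le_norm_of_mem hs
    rwa [Real.norm_eq_abs] at this

private theorem ent_cfc_Proj (hW : WT τ) {S : Set B} (hS : VSub τ S) {M : M2 B}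
    (hM : ∀ i j, ent M i j ∈ S) (hs : IsSelfAdjoint M) {f : ℝ → ℝ} (hf : Continuous f)
    (i j : Fin 2) : ent (cfc f M) i j ∈ S := by
  refine hS.of_norm hW fun ε hε => ?_
  obtain ⟨p, hp⟩ := exists_polynomial_near_of_continuousOn (-‖M‖) ‖M‖ f hf.continuousOn ε hε
  refine ⟨ent (Polynomial.aeval M p) i j, ?_, ?_⟩
  · rw [Polynomial.aeval_eq_sum_range, ent_sum_Proj]
    exact hS.sum _ _ fun k => hS.smul _ _ (ent_pow_Proj hS hM k i j)
  · rw [← ent_sub]
    refine (norm_ent_le _ _ _).trans ?_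
    rw [← cfc_polynomial p M hs, ← cfc_sub p.eval f M p.continuous.continuousOn hf.continuousOn]
    refine norm_cfc_le hε.le fun s hs' => ?_
    rw [Real.norm_eq_abs]
    exact (hp s (abs_le.1 (abs_le_Proj hs'))).le

private theorem XX_sub_Proj (x z : B) : XX x - XX z = XX (x - z) := by
  refine ext2 ?_ ?_ ?_ ?_ <;> rw [ent_sub]
  · show (0 : B) - 0 = 0
    rw [sub_zero]
  · rfl
  · show star x - star z = star (x - z)
    rw [star_sub]
  · show (0 : B) - 0 = 0
    rw [sub_zero]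

/-- Truncation in `S` does not increase the distance to the elements of the ball. -/
theorem exists_truncS (hW : WT τ) {S : Set B} (hS : VSub τ S) {z : B} (hz : z ∈ S) {C : ℝ}
    (hC : 0 ≤ C) : ∃ z' ∈ S, ‖z'‖ ≤ C ∧ ∀ x : B, ‖x‖ ≤ C → N τ (x - z') ≤ N τ (x - z) := by
  obtain ⟨M, hM⟩ : ∃ M : M2 B, M = cfc (clp C) (XX z) := ⟨_, rfl⟩
  have hMs : star M = M := by
    rw [hM]
    exact (cfc_predicate (clp C) (XX z) : IsSelfAdjoint _)
  obtain ⟨h00, h11⟩ := cfc_odd z (clp_cont C) (fun s => clp_odd hC s)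
  rw [← hM] at h00 h11
  have hMX : M = XX (ent M 0 1) := by
    refine ext2 h00 rfl ?_ h11
    show ent M 1 0 = star (ent M 0 1)
    rw [← ent_star, hMs]
  refine ⟨ent M 0 1, ?_, ?_, fun x hx => ?_⟩
  · rw [hM]
    refine ent_cfc_Proj hW hS (fun i j => ?_) (XX_selfAdjoint z) (clp_cont C) 0 1
    fin_cases i <;> fin_cases j
    · exact hS.zero
    · exact hz
    · exact hS.star z hz
    · exact hS.zero
  · refine (norm_ent_le M 0 1).trans ?_
    rw [hM]
    exact norm_cfc_le hC fun s _ => by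
      rw [Real.norm_eq_abs]
      exact clp_abs hC s
  · have h1 := N_clp_sub_le (isTr_tr2 hW.tr) (XX_selfAdjoint x) (XX_selfAdjoint z) C
    have h2 : cfc (clp C) (XX x) = XX x := by
      have h3 : cfc (clp C) (XX x) = cfc (fun s : ℝ => s) (XX x) := by
        refine cfc_congr fun s hs => ?_
        exact clp_of_le ((abs_le_Proj hs).trans ((norm_XX_Proj x).trans hx))
      rw [h3, cfc_id' ℝ (XX x) (XX_selfAdjoint x)]
    rw [h2, ← hM, hMX, XX_sub_Proj, XX_sub_Proj, N_XX hW.tr, N_XX hW.tr] at h1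
    linarith

/-- `N (d - e) = N d + N e - 2 Re τ (e* d)`. -/
theorem N_sub_eq (hτ : IsTr τ) (d e : B) :
    N τ (d - e) = N τ d + N τ e - 2 * (τ (star e * d)).re := by
  have h : star (d - e) * (d - e) = star d * d + star e * e -
      (star e * d + star (star e * d)) := by
    rw [star_sub, star_mul, star_star]
    noncomm_ring
  unfold N
  rw [h, map_sub, map_add, map_add, tau_star hτ]
  simp only [Complex.sub_re, Complex.add_re, Complex.conj_re]
  ring

/-- Orthogonality of a minimizer. -/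
private theorem orth_Proj (hτ : IsTr τ) {d s : B} (h : ∀ c : ℂ, N τ d ≤ N τ (d - c • s)) :
    τ (star s * d) = 0 := by
  obtain ⟨w, hw⟩ : ∃ w : ℂ, w = τ (star s * d) := ⟨_, rfl⟩
  rw [← hw]
  have hn := N_nonneg hτ s
  have key : ∀ t : ℝ, 0 ≤ t ^ 2 * (‖w‖ ^ 2 * N τ s) - 2 * t * ‖w‖ ^ 2 := by
    intro t
    have h1 := h ((t : ℂ) * w)
    rw [N_sub_eq hτ, N_smul, star_smul, smul_mul_assoc, map_smul, smul_eq_mul, ← hw] at h1
    have e1 : star ((t : ℂ) * w) * w = ((t * ‖w‖ ^ 2 : ℝ) : ℂ) := by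
      have e2 : star w * w = ((‖w‖ ^ 2 : ℝ) : ℂ) := by
        rw [← Complex.normSq_eq_norm_sq]
        exact (Complex.normSq_eq_conj_mul_self).symm
      have e3 : star (t : ℂ) = (t : ℂ) := Complex.conj_ofReal t
      rw [star_mul, e3, mul_comm (star w), mul_assoc, e2]
      push_cast
      ring
    rw [e1, Complex.ofReal_re, norm_mul, Complex.norm_real, mul_pow, Real.norm_eq_abs,
      sq_abs] at h1
    linarith
  by_contra hne
  have hpos : 0 < ‖w‖ := norm_pos_iff.2 hne
  have h2 := key (1 / (N τ s + 1))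
  have h3 : (1 / (N τ s + 1)) ^ 2 * (‖w‖ ^ 2 * N τ s) - 2 * (1 / (N τ s + 1)) * ‖w‖ ^ 2 =
      -(‖w‖ ^ 2 * (N τ s + 2)) / (N τ s + 1) ^ 2 := by
    field_simp
    ring
  rw [h3] at h2
  have h4 : 0 < ‖w‖ ^ 2 * (N τ s + 2) / (N τ s + 1) ^ 2 := by positivity
  rw [neg_div] at h2
  linarith

theorem exists_proj (hW : WT τ) {S : Set B} (hS : VSub τ S) (x : B) :
    ∃ z ∈ S, ‖z‖ ≤ ‖x‖ ∧ ∀ s ∈ S, N τ (x - z) ≤ N τ (x - s) := by
  obtain ⟨z, hz, hmin⟩ := exists_min hW (K := {z | z ∈ S ∧ ‖z‖ ≤ ‖x‖}) (C := ‖x‖)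
    ⟨0, hS.zero, by rw [norm_zero]; exact norm_nonneg x⟩ (fun z hz => hz.2)
    (fun u hu v hv => ⟨hS.smul _ _ (hS.add _ _ hu.1 hv.1), by
      rw [norm_smul]
      have h1 := norm_add_le u v
      have h2 := hu.2
      have h3 := hv.2
      norm_num
      linarith⟩)
    (fun u v hu hl => ⟨hS.lim u v ‖x‖ (fun n => (hu n).2) (fun n => (hu n).1) hl,
      hl.norm_le hW fun n => (hu n).2⟩) x
  refine ⟨z, hz.1, hz.2, fun s hs => ?_⟩
  obtain ⟨s', hs', hn, h⟩ := exists_truncS hW hS hs (norm_nonneg x)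
  exact (hmin s' ⟨hs', hn⟩).trans (h x le_rfl)

private theorem proj_orth (hW : WT τ) {S : Set B} (hS : VSub τ S) {x z : B} (hz : z ∈ S)
    (h : ∀ s ∈ S, N τ (x - z) ≤ N τ (x - s)) {s : B} (hs : s ∈ S) :
    τ (star s * (x - z)) = 0 := by
  refine orth_Proj hW.tr fun c => ?_
  have h1 := h (z + c • s) (hS.add _ _ hz (hS.smul _ _ hs))
  have e : x - (z + c • s) = x - z - c • s := by abel
  rwa [e] at h1

private theorem proj_unique (hW : WT τ) {S : Set B} (hS : VSub τ S) {x z z' : B} (hz : z ∈ S)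
    (hz' : z' ∈ S) (h : ∀ s ∈ S, τ (star s * (x - z)) = 0)
    (h' : ∀ s ∈ S, τ (star s * (x - z')) = 0) : z = z' := by
  have h1 := h (z - z') (hS.sub hz hz')
  have h2 := h' (z - z') (hS.sub hz hz')
  have h3 : N τ (z - z') = 0 := by
    unfold N
    have e : star (z - z') * (z - z') = star (z - z') * (x - z') - star (z - z') * (x - z) := by
      rw [← mul_sub]
      congr 1
      abel
    rw [e, map_sub, h1, h2, sub_zero, Complex.zero_re]
  exact sub_eq_zero.1 (hW.faithful _ h3)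

/-- The conditional expectation onto an abelian von Neumann subalgebra. -/
theorem exists_abExp (hW : WT τ) {S : Set B} (hS : VSub τ S)
    (hc : ∀ x ∈ S, ∀ y ∈ S, x * y = y * x) :
    ∃ E : B →ₗ[ℂ] B, AbExp τ E ∧ ∀ x, ∀ s ∈ S, N τ (x - E x) ≤ N τ (x - s) := by
  choose e he hn hmin using exists_proj hW hS
  have ho : ∀ x, ∀ s ∈ S, τ (star s * (x - e x)) = 0 := fun x s hs =>
    proj_orth hW hS (he x) (hmin x) hs
  have huniq : ∀ x z, z ∈ S → (∀ s ∈ S, τ (star s * (x - z)) = 0) → e x = z := fun x z hz h =>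
    proj_unique hW hS (he x) hz (ho x) h
  have hadd : ∀ x y, e (x + y) = e x + e y := by
    intro x y
    refine huniq _ _ (hS.add _ _ (he x) (he y)) fun s hs => ?_
    have e1 : star s * (x + y - (e x + e y)) = star s * (x - e x) + star s * (y - e y) := by
      noncomm_ring
    rw [e1, map_add, ho x s hs, ho y s hs, add_zero]
  have hsmul : ∀ (c : ℂ) x, e (c • x) = c • e x := by
    intro c x
    refine huniq _ _ (hS.smul _ _ (he x)) fun s hs => ?_
    rw [← smul_sub, mul_smul_comm, map_smul, ho x s hs, smul_zero]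
  refine ⟨{ toFun := e, map_add' := hadd, map_smul' := fun c x => hsmul c x },
    ⟨fun x y => hc _ (he x) _ (he y), fun x y => ?_, fun x => ?_, fun x => ?_, ?_, hn⟩, hmin⟩
  · show e (e x * y) = e x * e y
    refine huniq _ _ (hS.mul _ _ (he x) (he y)) fun s hs => ?_
    have h1 := ho y (star (e x) * s) (hS.mul _ _ (hS.star _ (he x)) hs)
    rw [star_mul, star_star] at h1
    rw [← mul_sub, ← mul_assoc]
    exact h1
  · show e (star x) = star (e x)
    refine huniq _ _ (hS.star _ (he x)) fun s hs => ?_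
    have h1 := ho x (star s) (hS.star _ hs)
    rw [star_star] at h1
    have h2 : star s * (star x - star (e x)) = star ((x - e x) * s) := by
      rw [star_mul, star_sub]
    rw [h2, tau_star hW.tr, hW.tr.comm, h1, map_zero]
  · show τ (e x) = τ x
    have h1 := ho x 1 hS.one
    rw [star_one, one_mul, map_sub, sub_eq_zero] at h1
    exact h1.symm
  · show e 1 = 1
    refine huniq _ _ hS.one fun s _ => ?_
    rw [sub_self, mul_zero, map_zero]

end Pool.McT
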