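import Pool.Agent.McT.R.Near
import Pool.Agent.McT.F.Fin

/-!
# Factors with a residual sequence

`VSub τ Q`: `Q` is a von Neumann subalgebra (unital *-subalgebra closed under bounded 2-norm
limits). `CentrNC τ`: for every `δ > 0` there is a von Neumann subalgebra `Q` with
`‖[x, y]‖₂² ≤ δ` for `x, y` in its unit ball such that every central sequence in the unit ball is
eventually within `δ` (squared 2-norm) of the unit ball of `Q`. `Residual τ Q`: `Q n` is a
residual sequence in McDuff's sense.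
-/

set_option autoImplicit false

namespace Pool.McT

open Filter Topology

variable {B : Type*} [CStarAlgebra B] {τ : B →ₗ[ℂ] ℂ}

/-- The central sequences are asymptotically contained in nearly commutative von Neumann
subalgebras. -/
def CentrNC (τ : B →ₗ[ℂ] ℂ) : Prop :=
  ∀ δ : ℝ, 0 < δ → ∃ Q : Set B, VSub τ Q ∧
    (∀ x ∈ Q, ‖x‖ ≤ 1 → ∀ y ∈ Q, ‖y‖ ≤ 1 → N τ (cm x y) ≤ δ) ∧
    ∀ x : ℕ → B, CentralSeq τ x → (∀ n, ‖x n‖ ≤ 1) →
      ∀ᶠ n in atTop, ∃ y ∈ Q, ‖y‖ ≤ 1 ∧ N τ (x n - y) ≤ δ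

/-- A residual sequence: a decreasing sequence of von Neumann subalgebras such that every bounded
sequence `x n ∈ Q n` is central and every central sequence (in the unit ball) is asymptotically
contained in (the unit ball of) each `Q m`. -/
structure Residual (τ : B →ₗ[ℂ] ℂ) (Q : ℕ → Set B) : Prop where
  vsub : ∀ n, VSub τ (Q n)
  anti : ∀ n, Q (n + 1) ⊆ Q n
  central : ∀ x : ℕ → B, (∀ n, x n ∈ Q n) → (∀ n, ‖x n‖ ≤ 1) → CentralSeq τ x
  contains : ∀ x : ℕ → B, CentralSeq τ x → (∀ n, ‖x n‖ ≤ 1) → ∀ (m : ℕ) (ε : ℝ), 0 < ε →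
    ∀ᶠ n in atTop, ∃ y ∈ Q m, ‖y‖ ≤ 1 ∧ N τ (x n - y) ≤ ε

/-- The range of a conditional expectation onto an abelian subalgebra. -/
theorem AbExp.vsub (hW : WT τ) {E : B →ₗ[ℂ] B} (hE : AbExp τ E) : VSub τ {x | E x = x} where
  one := hE.one
  add x y hx hy := by
    have h1 : E x = x := hx
    have h2 : E y = y := hy
    show E (x + y) = x + y
    rw [map_add, h1, h2]
  smul c x hx := by
    have h1 : E x = x := hx
    show E (c • x) = c • x
    rw [map_smul, h1]
  mul x y hx hy := by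
    have h1 : E x = x := hx
    have h2 : E y = y := hy
    show E (x * y) = x * y
    have h3 := hE.mod x y
    rwa [h1, h2] at h3
  star x hx := by
    have h1 : E x = x := hx
    show E (Star.star x) = Star.star x
    rw [hE.star, h1]
  lim x y C hC hx hl := by
    show E y = y
    have h1 : Lim2 τ x (E y) := by
      refine squeeze_zero (fun n => N_nonneg hW.tr _) (fun n => ?_) hl
      have h2 : x n - E y = E (x n - y) := by
        rw [map_sub]
        have h3 : E (x n) = x n := hx n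
        rw [h3]
      rw [h2]
      exact hE.N_le hW.tr _
    exact (hl.unique hW h1).symm

theorem centrNC_of_centrAb (hW : WT τ) (h : CentrAb τ) : CentrNC τ := by
  intro δ hδ
  obtain ⟨E, hE, hx⟩ := h δ hδ
  refine ⟨{x | E x = x}, hE.vsub hW, fun x hx' _ y hy' _ => ?_, fun x hc hn => ?_⟩
  · have h1 : E x = x := hx'
    have h2 : E y = y := hy'
    have h3 : cm x y = 0 := by
      unfold cm
      have h4 := hE.comm x y
      rw [h1, h2] at h4
      rw [h4, sub_self]
    rw [h3, N_zero]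
    exact hδ.le
  · filter_upwards [hx x hc hn] with n h1
    exact ⟨E (x n), hE.idem _, (hE.norm_le _).trans (hn n), h1⟩

theorem centrAb_of_centrNC (hW : WT τ) (h : CentrNC τ) : CentrAb τ := by
  intro δ hδ
  obtain ⟨Q, hQ, hc, hx⟩ := h (δ / 4) (by positivity)
  obtain ⟨E, hE, hn⟩ := near_abExp hW hQ hc
  refine ⟨E, hE, fun x hx1 hx2 => ?_⟩
  filter_upwards [hx x hx1 hx2] with n h1
  obtain ⟨y, hy, hy1, hxy⟩ := h1
  have h2 := hn y hy hy1
  have h3 := hE.N_sub_le hW.tr (x n - y)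
  have e : x n - E (x n) = ((x n - y) - E (x n - y)) + (y - E y) := by
    rw [map_sub]
    abel
  have h4 := N_add_le hW.tr ((x n - y) - E (x n - y)) (y - E y)
  rw [e]
  linarith

/-- A factor which is not McDuff and has a residual sequence. -/
theorem Residual.centrNC {Q : ℕ → Set B} (hR : Residual τ Q) (hM : ¬ McDuff τ) :
    CentrNC τ := by
  intro δ hδ
  have h1 : ∃ m, ∀ x ∈ Q m, ‖x‖ ≤ 1 → ∀ y ∈ Q m, ‖y‖ ≤ 1 → N τ (cm x y) ≤ δ := by
    by_contra hcon
    push Not at hcon
    choose x hx hx1 y hy hy1 hxy using hcon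
    refine hM ⟨x, y, hR.central x hx hx1, hR.central y hy hy1, fun h => ?_⟩
    obtain ⟨n, hn⟩ := (h.eventually (gt_mem_nhds hδ)).exists
    exact absurd hn (not_lt.2 (hxy n).le)
  obtain ⟨m, hm⟩ := h1
  exact ⟨Q m, hR.vsub m, hm, fun x hx hx1 => hR.contains x hx hx1 m δ hδ⟩

variable {A D : Type*} [CStarAlgebra A] [CStarAlgebra D]
  {τA : A →ₗ[ℂ] ℂ} {τD : D →ₗ[ℂ] ℂ} {iA : A →⋆ₐ[ℂ] D} {iB : B →⋆ₐ[ℂ] D}

/-- If the central sequences of `B` are asymptotically contained in nearly commutative von Neumann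
subalgebras and `A ⊗ B` is McDuff, then `A` is McDuff. -/
theorem mcduff_of_centrNC (T : Tens τA τ τD iA iB) (hd : Dense2 τD iA iB) (hA : Fac τA)
    (hB : Fac τ) (sA : Sep τA) (sB : Sep τ) (hN : CentrNC τ) (hD : McDuff τD) : McDuff τA := by
  by_contra mA
  exact not_mcduff_tens T hd hA hB sA sB mA (centrAb_of_centrNC hB.toWT hN) hD

/-- If `B` has a residual sequence and `A ⊗ B` is McDuff, then `A` or `B` is McDuff. -/
theorem mcduff_of_residual (T : Tens τA τ τD iA iB) (hd : Dense2 τD iA iB) (hA : Fac τA)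
    (hB : Fac τ) (sA : Sep τA) (sB : Sep τ) {Q : ℕ → Set B} (hR : Residual τ Q)
    (hD : McDuff τD) : McDuff τA ∨ McDuff τ := by
  by_cases mB : McDuff τ
  · exact Or.inr mB
  · exact Or.inl (mcduff_of_centrNC T hd hA hB sA sB (hR.centrNC mB) hD)

end Pool.McT
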