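import Pool.Agent.McT.W.Lim

/-! Von Neumann subalgebras and maximal abelian subalgebras. -/

set_option autoImplicit false

namespace Pool.McT

open Filter Topology

variable {B : Type*} [CStarAlgebra B] {τ : B →ₗ[ℂ] ℂ}

/-- A von Neumann subalgebra: a unital *-subalgebra closed under bounded 2-norm limits. -/
structure VSub (τ : B →ₗ[ℂ] ℂ) (Q : Set B) : Prop where
  one : (1 : B) ∈ Q
  add : ∀ x y, x ∈ Q → y ∈ Q → x + y ∈ Q
  smul : ∀ (c : ℂ) (x : B), x ∈ Q → c • x ∈ Q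
  mul : ∀ x y, x ∈ Q → y ∈ Q → x * y ∈ Q
  star : ∀ x, x ∈ Q → star x ∈ Q
  lim : ∀ (x : ℕ → B) (y : B) (C : ℝ), (∀ n, ‖x n‖ ≤ C) → (∀ n, x n ∈ Q) → Lim2 τ x y → y ∈ Q

theorem VSub.zero {Q : Set B} (hQ : VSub τ Q) : (0 : B) ∈ Q := by
  have h := hQ.smul 0 1 hQ.one
  rwa [zero_smul] at h

theorem VSub.neg {Q : Set B} (hQ : VSub τ Q) {x : B} (hx : x ∈ Q) : -x ∈ Q := by
  have h := hQ.smul (-1) x hx
  rwa [neg_smul, one_smul] at h

theorem VSub.sub {Q : Set B} (hQ : VSub τ Q) {x y : B} (hx : x ∈ Q) (hy : y ∈ Q) :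
    x - y ∈ Q := by
  rw [sub_eq_add_neg]
  exact hQ.add _ _ hx (hQ.neg hy)

/-- the commuting star closed subsets of `Q` -/
private def famSub (Q : Set B) : Set (Set B) :=
  {T | T ⊆ Q ∧ (∀ x ∈ T, star x ∈ T) ∧ ∀ x ∈ T, ∀ y ∈ T, x * y = y * x}

private theorem zorn_Sub (Q : Set B) :
    ∃ S ⊆ Q, (∀ x ∈ S, star x ∈ S) ∧ (∀ x ∈ S, ∀ y ∈ S, x * y = y * x) ∧
      ∀ z ∈ Q, star z ∈ Q → star z * z = z * star z → (∀ s ∈ S, z * s = s * z) → z ∈ S := by
  obtain ⟨S, hS⟩ := zorn_subset (famSub Q) (by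
    intro c hc hch
    refine ⟨⋃₀ c, ⟨?_, ?_, ?_⟩, fun s hs => Set.subset_sUnion_of_mem hs⟩
    · exact Set.sUnion_subset fun s hs => (hc hs).1
    · rintro x ⟨s, hs, hx⟩
      exact ⟨s, hs, (hc hs).2.1 x hx⟩
    · rintro x ⟨s, hs, hx⟩ y ⟨t, ht, hy⟩
      rcases hch.total hs ht with h | h
      · exact (hc ht).2.2 x (h hx) y hy
      · exact (hc hs).2.2 x hx y (h hy))
  obtain ⟨hSQ, hst, hcomm⟩ := hS.1
  refine ⟨S, hSQ, hst, hcomm, fun z hz hz' hn hc => ?_⟩
  have hc' : ∀ s ∈ S, star z * s = s * star z := by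
    intro s hs
    have h1 := hc (star s) (hst s hs)
    have h2 := congrArg star h1
    rw [star_mul, star_mul, star_star] at h2
    exact h2.symm
  have h1 : S ∪ {z, star z} ∈ famSub Q := by
    refine ⟨?_, ?_, ?_⟩
    · rintro x (hx | rfl | rfl)
      · exact hSQ hx
      · exact hz
      · exact hz'
    · rintro x (hx | rfl | rfl)
      · exact Or.inl (hst x hx)
      · exact Or.inr (Or.inr rfl)
      · exact Or.inr (Or.inl (star_star z))
    · rintro x (hx | rfl | rfl) y (hy | rfl | rfl)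
      · exact hcomm x hx y hy
      · exact (hc x hx).symm
      · exact (hc' x hx).symm
      · exact hc y hy
      · rfl
      · exact hn.symm
      · exact hc' y hy
      · exact hn
      · rfl
  exact hS.2 h1 Set.subset_union_left (Or.inr (Or.inl rfl))

/-- A maximal abelian subalgebra of `Q`. -/
theorem exists_masa (hW : WT τ) {Q : Set B} (hQ : VSub τ Q) :
    ∃ S ⊆ Q, VSub τ S ∧ (∀ x ∈ S, ∀ y ∈ S, x * y = y * x) ∧
      ∀ z ∈ Q, (∀ s ∈ S, z * s = s * z) → z ∈ S := by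
  obtain ⟨S, hSQ, hst, hcomm, hmax⟩ := zorn_Sub Q
  have hm : ∀ z ∈ Q, star z * z = z * star z → (∀ s ∈ S, z * s = s * z) → z ∈ S :=
    fun z hz => hmax z hz (hQ.star z hz)
  have hadd : ∀ x y, x ∈ S → y ∈ S → x + y ∈ S := by
    intro x y hx hy
    refine hm _ (hQ.add _ _ (hSQ hx) (hSQ hy)) ?_ fun s hs => ?_
    · rw [star_add, add_mul, mul_add, mul_add, add_mul, mul_add, mul_add,
        hcomm _ (hst x hx) _ hx, hcomm _ (hst x hx) _ hy, hcomm _ (hst y hy) _ hx,
        hcomm _ (hst y hy) _ hy]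
      abel
    · rw [add_mul, mul_add, hcomm x hx s hs, hcomm y hy s hs]
  have hsmul : ∀ (c : ℂ) (x : B), x ∈ S → c • x ∈ S := by
    intro c x hx
    refine hm _ (hQ.smul _ _ (hSQ hx)) ?_ fun s hs => ?_
    · rw [star_smul, smul_mul_smul_comm, smul_mul_smul_comm, hcomm _ (hst x hx) _ hx, mul_comm c]
    · rw [smul_mul_assoc, mul_smul_comm, hcomm x hx s hs]
  have hgen : ∀ z ∈ Q, (∀ s ∈ S, z * s = s * z) → z ∈ S := by
    intro z hz hc
    have hc' : ∀ s ∈ S, star z * s = s * star z := by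
      intro s hs
      have h2 := congrArg star (hc (star s) (hst s hs))
      rw [star_mul, star_mul, star_star] at h2
      exact h2.symm
    have h1 : z + star z ∈ S := by
      refine hm _ (hQ.add _ _ hz (hQ.star _ hz)) ?_ fun s hs => ?_
      · rw [star_add, star_star, add_comm (star z) z]
      · rw [add_mul, mul_add, hc s hs, hc' s hs]
    have h2 : z - star z ∈ S := by
      refine hm _ (hQ.sub hz (hQ.star _ hz)) ?_ fun s hs => ?_
      · have e : star (z - star z) = -(z - star z) := by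
          rw [star_sub, star_star, neg_sub]
        rw [e, neg_mul, mul_neg]
      · rw [sub_mul, mul_sub, hc s hs, hc' s hs]
    have h3 : z = (1 / 2 : ℂ) • ((z + star z) + (z - star z)) := by
      have e : z + star z + (z - star z) = (2 : ℂ) • z := by
        rw [two_smul]
        abel
      rw [e, smul_smul]
      norm_num
    rw [h3]
    exact hsmul _ _ (hadd _ _ h1 h2)
  refine ⟨S, hSQ, ⟨?_, hadd, hsmul, ?_, hst, ?_⟩, hcomm, hgen⟩
  · exact hgen 1 hQ.one fun s _ => by rw [one_mul, mul_one]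
  · intro x y hx hy
    refine hgen _ (hQ.mul _ _ (hSQ hx) (hSQ hy)) fun s hs => ?_
    rw [mul_assoc, hcomm y hy s hs, ← mul_assoc, hcomm x hx s hs, mul_assoc]
  · intro x y C hC hx hl
    refine hgen _ (hQ.lim x y C hC (fun n => hSQ (hx n)) hl) fun s hs => ?_
    have h1 := hl.mul_right hW s
    have h2 := hl.mul_left hW s
    have h3 : (fun n => x n * s) = fun n => s * x n := funext fun n => hcomm _ (hx n) s hs
    rw [h3] at h1
    exact h1.unique hW h2

theorem VSub.of_norm (hW : WT τ) {S : Set B} (hS : VSub τ S) {x : B}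
    (h : ∀ ε : ℝ, 0 < ε → ∃ z ∈ S, ‖z - x‖ ≤ ε) : x ∈ S := by
  have h1 : ∀ n : ℕ, ∃ z ∈ S, ‖z - x‖ ≤ 1 / ((n : ℝ) + 1) := fun n => h _ (by positivity)
  choose z hz hzx using h1
  refine hS.lim z x (1 + ‖x‖) (fun n => ?_) hz (lim2_of_norm hW ?_)
  · have h2 := norm_add_le (z n - x) x
    rw [sub_add_cancel] at h2
    have h3 : 1 / ((n : ℝ) + 1) ≤ 1 := by
      rw [div_le_one (by positivity)]
      have : (0 : ℝ) ≤ n := Nat.cast_nonneg n
      linarith
    linarith [hzx n]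
  · exact squeeze_zero (fun n => norm_nonneg _) hzx tendsto_one_div_add_atTop_nhds_zero_nat

theorem VSub.pow {S : Set B} (hS : VSub τ S) {y : B} (hy : y ∈ S) (n : ℕ) : y ^ n ∈ S := by
  induction n with
  | zero => rw [pow_zero]; exact hS.one
  | succ n ih => rw [pow_succ]; exact hS.mul _ _ ih hy

theorem VSub.sum {S : Set B} (hS : VSub τ S) (n : ℕ) (f : ℕ → B) (hf : ∀ i, f i ∈ S) :
    ∑ i ∈ Finset.range n, f i ∈ S := by
  induction n with
  | zero => rw [Finset.sum_range_zero]; exact hS.zero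
  | succ n ih => rw [Finset.sum_range_succ]; exact hS.add _ _ ih (hf n)

theorem VSub.aeval {S : Set B} (hS : VSub τ S) {y : B} (hy : y ∈ S) (p : Polynomial ℝ) :
    Polynomial.aeval y p ∈ S := by
  rw [Polynomial.aeval_eq_sum_range]
  exact hS.sum _ _ fun i => hS.smul ((p.coeff i : ℝ) : ℂ) _ (hS.pow hy i)

theorem VSub.cfc (hW : WT τ) {S : Set B} (hS : VSub τ S) {y : B} (hy : y ∈ S)
    (hs : IsSelfAdjoint y) {f : ℝ → ℝ} (hf : Continuous f) : cfc f y ∈ S := by
  refine hS.of_norm hW fun ε hε => ?_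
  obtain ⟨p, hp⟩ := exists_polynomial_near_of_continuousOn (-‖y‖) ‖y‖ f hf.continuousOn ε hε
  refine ⟨Polynomial.aeval y p, hS.aeval hy p, ?_⟩
  rw [← cfc_polynomial p y hs, ← cfc_sub p.eval f y p.continuous.continuousOn hf.continuousOn]
  refine norm_cfc_le hε.le fun s hs' => ?_
  rw [Real.norm_eq_abs]
  refine (hp s (abs_le.1 ?_)).le
  rcases subsingleton_or_nontrivial B with h' | h'
  · exact absurd hs' (by simp [spectrum.of_subsingleton])
  · have := spectrum.norm_le_norm_of_mem hs'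
    rwa [Real.norm_eq_abs] at this

end Pool.McT
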